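import Pool.Agent.TH528.MC.Tri

/-!
# Graphs without large cuts have dense subgraphs
-/

set_option autoImplicit false

namespace Pool.Agent.TH528.MC

open Finset SimpleGraph

section

variable {V : Type*} [Fintype V] [DecidableEq V] (G : SimpleGraph V) [DecidableRel G.Adj]

/-- If `∑ √d ≤ S` and `r S ≤ m / 2` then the vertices of degree larger than `r ^ 2` span at least half of the edges, and there
are at most `S / r` of them. -/
theorem dense_of_sum_sqrt (S r : ℝ) (hr : 0 < r) (hS : ∑ v, Real.sqrt (G.degree v) ≤ S)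
    (hrS : r * S ≤ (#G.edgeFinset : ℝ) / 2) :
    ∃ U : Finset V, r * #U ≤ S ∧ (#G.edgeFinset : ℝ) ≤ ∑ i ∈ U, ((#(U.filter (fun j => G.Adj i j)) : ℕ) : ℝ) := by
  classical
  set m : ℝ := (#G.edgeFinset : ℝ) with hm
  set U : Finset V := univ.filter (fun v => r < Real.sqrt (G.degree v)) with hU
  refine ⟨U, ?_, ?_⟩
  · calc r * #U = ∑ _v ∈ U, r := by rw [sum_const, nsmul_eq_mul]; ring
      _ ≤ ∑ v ∈ U, Real.sqrt (G.degree v) := sum_le_sum fun v hv => (mem_filter.1 hv).2.le
      _ ≤ ∑ v, Real.sqrt (G.degree v) := sum_le_sum_of_subset_of_nonneg (subset_univ _) fun _ _ _ => Real.sqrt_nonneg _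
      _ ≤ S := hS
  · have hs : ∑ v, (G.degree v : ℝ) = 2 * m := by
      have := G.sum_degrees_eq_twice_card_edges
      rw [hm]
      exact_mod_cast this
    have hdeg : ∀ v, (G.degree v : ℝ) = ∑ w, (if G.Adj v w then (1 : ℝ) else 0) := by
      intro v
      rw [← sum_filter, sum_const, nsmul_eq_mul, mul_one, ← SimpleGraph.card_neighborFinset_eq_degree]
      congr 2
      ext w
      simp
    have hsplit : ∑ v, (G.degree v : ℝ) ≤ ∑ i ∈ U, ((#(U.filter (fun j => G.Adj i j)) : ℕ) : ℝ) +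
        2 * ∑ v ∈ Uᶜ, (G.degree v : ℝ) := by
      have e1 : ∑ v, (G.degree v : ℝ) = ∑ v ∈ U, (G.degree v : ℝ) + ∑ v ∈ Uᶜ, (G.degree v : ℝ) :=
        (sum_add_sum_compl U _).symm
      have e2 : ∑ v ∈ U, (G.degree v : ℝ) = ∑ i ∈ U, ((#(U.filter (fun j => G.Adj i j)) : ℕ) : ℝ) +
          ∑ v ∈ U, ∑ w ∈ Uᶜ, (if G.Adj v w then (1 : ℝ) else 0) := by
        rw [← sum_add_distrib]
        apply sum_congr rfl
        intro v _
        rw [hdeg, ← sum_add_sum_compl U, card_filter]
        push_cast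
        rfl
      have e3 : ∑ v ∈ U, ∑ w ∈ Uᶜ, (if G.Adj v w then (1 : ℝ) else 0) ≤ ∑ v ∈ Uᶜ, (G.degree v : ℝ) := by
        rw [sum_comm]
        apply sum_le_sum
        intro v _
        rw [hdeg]
        calc ∑ w ∈ U, (if G.Adj w v then (1 : ℝ) else 0) = ∑ w ∈ U, (if G.Adj v w then (1 : ℝ) else 0) := by
              apply sum_congr rfl
              intro w _
              simp [G.adj_comm]
          _ ≤ _ := sum_le_sum_of_subset_of_nonneg (subset_univ _) fun w _ _ => by split_ifs <;> norm_num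
      linarith
    have h2 : ∑ v ∈ Uᶜ, (G.degree v : ℝ) ≤ r * S := by
      calc ∑ v ∈ Uᶜ, (G.degree v : ℝ) ≤ ∑ v ∈ Uᶜ, r * Real.sqrt (G.degree v) := by
            apply sum_le_sum
            intro v hv
            rw [mem_compl, hU, mem_filter, not_and] at hv
            have h1 : Real.sqrt (G.degree v) ≤ r := not_lt.1 (hv (mem_univ v))
            calc (G.degree v : ℝ) = Real.sqrt (G.degree v) * Real.sqrt (G.degree v) :=
                  (Real.mul_self_sqrt (Nat.cast_nonneg _)).symm
              _ ≤ _ := mul_le_mul_of_nonneg_right h1 (Real.sqrt_nonneg _)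
        _ = r * ∑ v ∈ Uᶜ, Real.sqrt (G.degree v) := by rw [mul_sum]
        _ ≤ r * ∑ v, Real.sqrt (G.degree v) := by
            apply mul_le_mul_of_nonneg_left _ hr.le
            exact sum_le_sum_of_subset_of_nonneg (subset_univ _) fun _ _ _ => Real.sqrt_nonneg _
        _ ≤ r * S := mul_le_mul_of_nonneg_left hS hr.le
    linarith

end

/-- The subgraph spanned by `U`, with the vertices renamed. -/
theorem exists_sub {V : Type*} [DecidableEq V] (G : SimpleGraph V) [DecidableRel G.Adj] (U : Finset V) :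
    ∃ (G' : SimpleGraph (Fin #U)) (_ : DecidableRel G'.Adj), G' ⊑ G ∧
      2 * (#G'.edgeFinset : ℝ) = ∑ i ∈ U, ((#(U.filter (fun j => G.Adj i j)) : ℕ) : ℝ) := by
  classical
  let f : Fin #U ↪ V := U.equivFin.symm.toEmbedding.trans (Function.Embedding.subtype _)
  refine ⟨G.comap f, inferInstance,
    ⟨(SimpleGraph.Embedding.comap f G).toCopy⟩, ?_⟩
  have hfU : ∀ i, f i ∈ U := fun i => (U.equivFin.symm i).2
  have hdeg : ∀ i, (G.comap f).degree i = #(U.filter (fun j => G.Adj (f i) j)) := by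
    intro i
    rw [← SimpleGraph.card_neighborFinset_eq_degree]
    refine card_bij (fun j _ => f j) ?_ ?_ ?_
    · intro j hj
      rw [SimpleGraph.mem_neighborFinset, SimpleGraph.comap_adj] at hj
      exact mem_filter.2 ⟨hfU j, hj⟩
    · intro j _ j' _ hjj
      exact f.injective hjj
    · intro j hj
      rw [mem_filter] at hj
      refine ⟨U.equivFin ⟨j, hj.1⟩, ?_, ?_⟩
      · rw [SimpleGraph.mem_neighborFinset, SimpleGraph.comap_adj]
        have : f (U.equivFin ⟨j, hj.1⟩) = j := by simp [f]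
        rw [this]
        exact hj.2
      · simp [f]
  have hs := (G.comap f).sum_degrees_eq_twice_card_edges
  have hs' : ∑ i, ((G.comap f).degree i : ℝ) = 2 * (#(G.comap f).edgeFinset : ℝ) := by exact_mod_cast hs
  rw [← hs', ← sum_coe_sort U (fun i => ((#(U.filter (fun j => G.Adj i j)) : ℕ) : ℝ)),
    ← U.equivFin.symm.sum_comp]
  apply sum_congr rfl
  intro i _
  rw [hdeg]
  rfl

end Pool.Agent.TH528.MC
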