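import Pool.Agent.TH528.MC.Tri
import Pool.Agent.TH528.GN.CycleMain

/-!
# Cuts and factorization norm
-/

set_option autoImplicit false

namespace Pool.Agent.TH528.MC

open Finset SimpleGraph

variable {V : Type*} [Fintype V] [DecidableEq V] (G : SimpleGraph V) [DecidableRel G.Adj]

omit [Fintype V] in
/-- Every set of vertices spans few edges. -/
theorem inner_le {k : ℕ} (hk : 2 ≤ k) (hfree : (SimpleGraph.cycleGraph (2 * k)).Free G)
    {L : Type*} [Fintype L] (u v : V → L → ℝ) (β w : ℝ)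
    (h0 : ∀ i j, ¬ G.Adj i j → ∑ l, u i l * v j l = 0)
    (h1 : ∀ i j, G.Adj i j → 1 ≤ |∑ l, u i l * v j l| ∧ |∑ l, u i l * v j l| ≤ β)
    (hu : ∀ i, ∑ l, u i l ^ 2 ≤ w) (hv : ∀ j, ∑ l, v j l ^ 2 ≤ w)
    (U : Finset V) :
    ∑ i ∈ U, ((#(U.filter (fun j => G.Adj i j)) : ℕ) : ℝ) ≤ 32 * ((k : ℝ) - 1) * (w ^ 2 * β ^ 4) * #U := by
  classical
  set H : SimpleGraph U := G.comap (fun i : U => (i : V)) with hH
  have hHfree : (SimpleGraph.cycleGraph (2 * k)).Free H := by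
    intro hc
    exact hfree (hc.trans ⟨(SimpleGraph.Embedding.comap (Function.Embedding.subtype (fun x => x ∈ U)) G).toCopy⟩)
  have hdegH : ∀ i : U, H.degree i = (U.filter (fun j => G.Adj i j)).card := by
    intro i
    rw [← SimpleGraph.card_neighborFinset_eq_degree]
    refine card_bij (fun (j : U) _ => (j : V)) ?_ ?_ ?_
    · intro j hj
      rw [SimpleGraph.mem_neighborFinset, hH, SimpleGraph.comap_adj] at hj
      exact mem_filter.2 ⟨j.2, hj⟩
    · intro j _ j' _ hjj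
      exact Subtype.ext hjj
    · intro j hj
      rw [mem_filter] at hj
      refine ⟨⟨j, hj.1⟩, ?_, rfl⟩
      rw [SimpleGraph.mem_neighborFinset, hH, SimpleGraph.comap_adj]
      exact hj.2
  have hb := Pool.Agent.TH528.GN.edges_le_cycle H hk hHfree (fun i => u i) (fun j => v j) β w
    (fun i j hij => h0 i j hij) (fun i j hij => h1 i j hij) (fun i => hu i) (fun j => hv j)
  have hs := H.sum_degrees_eq_twice_card_edges
  have hs' : ∑ i : U, (H.degree i : ℝ) = 2 * (H.edgeFinset.card : ℝ) := by exact_mod_cast hs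
  have e : ∑ i : U, (H.degree i : ℝ) = ∑ i ∈ U, ((#(U.filter (fun j => G.Adj i j)) : ℕ) : ℝ) := by
    rw [← sum_coe_sort U (fun i => ((#(U.filter (fun j => G.Adj i j)) : ℕ) : ℝ))]
    apply sum_congr rfl
    intro i _
    rw [hdegH]
  rw [← e, hs']
  rw [Fintype.card_coe] at hb
  linarith

/-- If every set of vertices `U` spans at most `R |U| / 2` edges then `∑ √d ≥ m / (2 √(2 R))`. -/
theorem sum_sqrt_ge (R : ℝ) (hR : 0 < R)
    (h : ∀ U : Finset V, ∑ i ∈ U, ((#(U.filter (fun j => G.Adj i j)) : ℕ) : ℝ) ≤ R * #U) :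
    (#G.edgeFinset : ℝ) / (2 * Real.sqrt (2 * R)) ≤ ∑ v, Real.sqrt (G.degree v) := by
  classical
  set m : ℝ := (#G.edgeFinset : ℝ) with hm
  have hs : ∑ v, (G.degree v : ℝ) = 2 * m := by
    have := G.sum_degrees_eq_twice_card_edges
    rw [hm]
    exact_mod_cast this
  set B : Finset V := univ.filter (fun v => 2 * R < G.degree v) with hB
  have hB1 : 2 * R * #B ≤ 2 * m := by
    calc 2 * R * #B = ∑ _v ∈ B, 2 * R := by rw [sum_const, nsmul_eq_mul]; ring
      _ ≤ ∑ v ∈ B, (G.degree v : ℝ) := sum_le_sum fun v hv => (mem_filter.1 hv).2.le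
      _ ≤ ∑ v, (G.degree v : ℝ) := sum_le_sum_of_subset_of_nonneg (subset_univ _) fun _ _ _ => Nat.cast_nonneg _
      _ = 2 * m := hs
  have hB2 : ∑ i ∈ B, ((#(B.filter (fun j => G.Adj i j)) : ℕ) : ℝ) ≤ m := by
    refine (h B).trans ?_
    linarith
  have hdeg : ∀ v, (G.degree v : ℝ) = ∑ w, (if G.Adj v w then (1 : ℝ) else 0) := by
    intro v
    rw [← sum_filter, sum_const, nsmul_eq_mul, mul_one, ← SimpleGraph.card_neighborFinset_eq_degree]
    congr 2
    ext w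
    simp
  have hsplit : ∑ v, (G.degree v : ℝ) ≤ ∑ i ∈ B, ((#(B.filter (fun j => G.Adj i j)) : ℕ) : ℝ) +
      2 * ∑ v ∈ Bᶜ, (G.degree v : ℝ) := by
    have e1 : ∑ v, (G.degree v : ℝ) = ∑ v ∈ B, (G.degree v : ℝ) + ∑ v ∈ Bᶜ, (G.degree v : ℝ) :=
      (sum_add_sum_compl B _).symm
    have e2 : ∑ v ∈ B, (G.degree v : ℝ) = ∑ i ∈ B, ((#(B.filter (fun j => G.Adj i j)) : ℕ) : ℝ) +
        ∑ v ∈ B, ∑ w ∈ Bᶜ, (if G.Adj v w then (1 : ℝ) else 0) := by
      rw [← sum_add_distrib]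
      apply sum_congr rfl
      intro v _
      rw [hdeg, ← sum_add_sum_compl B, card_filter]
      push_cast
      rfl
    have e3 : ∑ v ∈ B, ∑ w ∈ Bᶜ, (if G.Adj v w then (1 : ℝ) else 0) ≤ ∑ v ∈ Bᶜ, (G.degree v : ℝ) := by
      rw [sum_comm]
      apply sum_le_sum
      intro v _
      rw [hdeg]
      calc ∑ w ∈ B, (if G.Adj w v then (1 : ℝ) else 0) = ∑ w ∈ B, (if G.Adj v w then (1 : ℝ) else 0) := by
            apply sum_congr rfl
            intro w _
            simp [G.adj_comm]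
        _ ≤ _ := sum_le_sum_of_subset_of_nonneg (subset_univ _) fun w _ _ => by split_ifs <;> norm_num
    linarith
  have hBc : m / 2 ≤ ∑ v ∈ Bᶜ, (G.degree v : ℝ) := by linarith
  have hR2 : 0 < Real.sqrt (2 * R) := Real.sqrt_pos.2 (by linarith)
  have hfin : (∑ v ∈ Bᶜ, (G.degree v : ℝ)) / Real.sqrt (2 * R) ≤ ∑ v, Real.sqrt (G.degree v) := by
    rw [sum_div]
    calc ∑ v ∈ Bᶜ, (G.degree v : ℝ) / Real.sqrt (2 * R) ≤ ∑ v ∈ Bᶜ, Real.sqrt (G.degree v) := by
          apply sum_le_sum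
          intro v hv
          rw [mem_compl, hB, mem_filter, not_and] at hv
          have h1 : (G.degree v : ℝ) ≤ 2 * R := not_lt.1 (hv (mem_univ v))
          rw [div_le_iff₀ hR2]
          calc (G.degree v : ℝ) = Real.sqrt (G.degree v) * Real.sqrt (G.degree v) :=
                (Real.mul_self_sqrt (Nat.cast_nonneg _)).symm
            _ ≤ _ := mul_le_mul_of_nonneg_left (Real.sqrt_le_sqrt h1) (Real.sqrt_nonneg _)
      _ ≤ _ := sum_le_sum_of_subset_of_nonneg (subset_univ _) fun _ _ _ => Real.sqrt_nonneg _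
  refine le_trans ?_ hfin
  rw [div_le_div_iff₀ (by positivity) hR2]
  nlinarith

/-- The cut for graphs without `C_{2k}` of small factorization norm. -/
theorem cut_of_represents {k : ℕ} (hk : 2 ≤ k) (hfree : (SimpleGraph.cycleGraph (2 * k)).Free G)
    {L : Type*} [Fintype L] (u v : V → L → ℝ) (β w : ℝ)
    (h0 : ∀ i j, ¬ G.Adj i j → ∑ l, u i l * v j l = 0)
    (h1 : ∀ i j, G.Adj i j → 1 ≤ |∑ l, u i l * v j l| ∧ |∑ l, u i l * v j l| ≤ β)
    (hu : ∀ i, ∑ l, u i l ^ 2 ≤ w) (hv : ∀ j, ∑ l, v j l ^ 2 ≤ w) :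
    ∃ A : Finset V, (#G.edgeFinset : ℝ) / 2 + (#G.edgeFinset : ℝ) / (4096 * (k * Real.sqrt k) * (w * β ^ 2)) ≤
      cut G A := by
  classical
  rcases Nat.eq_zero_or_pos (#G.edgeFinset) with hm | hm
  · refine ⟨∅, ?_⟩
    rw [hm]
    simp
  have hm0 : (0 : ℝ) < #G.edgeFinset := by exact_mod_cast hm
  obtain ⟨e, he⟩ := card_pos.1 hm
  induction e using Sym2.ind with
  | _ a b =>
  rw [mem_edgeFinset, mem_edgeSet] at he
  have hβ : 1 ≤ β := (h1 _ _ he).1.trans (h1 _ _ he).2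
  have hw0 : 0 ≤ w := (sum_nonneg fun l _ => sq_nonneg _).trans (hu a)
  have hw : 1 ≤ w := by
    have h2 : (∑ l, u a l * v b l) ^ 2 ≤ w * w := by
      calc (∑ l, u a l * v b l) ^ 2 ≤ (∑ l, u a l ^ 2) * (∑ l, v b l ^ 2) := sum_mul_sq_le_sq_mul_sq _ _ _
        _ ≤ w * w := mul_le_mul (hu _) (hv _) (sum_nonneg fun l _ => sq_nonneg _) hw0
    have h3 : 1 ≤ (∑ l, u a l * v b l) ^ 2 := by
      rw [← sq_abs]
      have := (h1 _ _ he).1
      nlinarith
    nlinarith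
  have hk1 : (2 : ℝ) ≤ k := by exact_mod_cast hk
  set R : ℝ := 32 * ((k : ℝ) - 1) * (w ^ 2 * β ^ 4) with hR
  have hkp : (0 : ℝ) < (k : ℝ) - 1 := by linarith
  have hR0 : 0 < R := by positivity
  have hsum := sum_sqrt_ge G R hR0 (fun U => inner_le G hk hfree u v β w h0 h1 hu hv U)
  obtain ⟨A, hA⟩ := cut_ge G hk hfree
  refine ⟨A, le_trans ?_ hA⟩
  have hsq : Real.sqrt (2 * R) ≤ 8 * Real.sqrt k * (w * β ^ 2) := by
    rw [Real.sqrt_le_left (by positivity)]
    rw [mul_pow, mul_pow, Real.sq_sqrt (by linarith)]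
    have : (w * β ^ 2) ^ 2 = w ^ 2 * β ^ 4 := by ring
    rw [this, hR]
    have : 0 ≤ w ^ 2 * β ^ 4 := by positivity
    nlinarith
  have hsq0 : 0 < Real.sqrt (2 * R) := Real.sqrt_pos.2 (by linarith)
  have hk0 : 0 < Real.sqrt k := Real.sqrt_pos.2 (by linarith)
  have h5 : (#G.edgeFinset : ℝ) / (4096 * (k * Real.sqrt k) * (w * β ^ 2)) ≤
      1 / (256 * k) * ((#G.edgeFinset : ℝ) / (2 * Real.sqrt (2 * R))) := by
    rw [one_div, inv_mul_eq_div, div_div]
    apply div_le_div_of_nonneg_left hm0.le (by positivity)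
    have : 2 * Real.sqrt (2 * R) * (256 * k) ≤ 2 * (8 * Real.sqrt k * (w * β ^ 2)) * (256 * k) := by
      apply mul_le_mul_of_nonneg_right _ (by positivity)
      linarith
    refine this.trans (le_of_eq ?_)
    ring
  have h6 := mul_le_mul_of_nonneg_left hsum (by positivity : (0 : ℝ) ≤ 1 / (256 * k))
  linarith

end Pool.Agent.TH528.MC
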