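import Mathlib

/-!
# Rounding
-/

set_option autoImplicit false

namespace Pool.Agent.TH528.MC

open Finset

variable {V : Type*} [Fintype V] [DecidableEq V] (G : SimpleGraph V) [DecidableRel G.Adj]

/-- The quadratic form of the adjacency matrix. -/
noncomputable def q (x : V → ℝ) : ℝ := ∑ u, ∑ v, (if G.Adj u v then x u * x v else 0)

theorem q_update (x : V → ℝ) (v : V) (t : ℝ) :
    q G (Function.update x v t) = q G x + 2 * (t - x v) * ∑ w, (if G.Adj v w then x w else 0) := by
  set c := t - x v with hc
  have hx : ∀ u, Function.update x v t u = x u + (if u = v then c else 0) := by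
    intro u
    by_cases h : u = v
    · subst h
      rw [Function.update_self, if_pos rfl, hc]
      ring
    · rw [Function.update_of_ne h, if_neg h, add_zero]
  unfold q
  have e : ∀ u w, (if G.Adj u w then Function.update x v t u * Function.update x v t w else 0) =
      (if G.Adj u w then x u * x w else 0) + (if w = v then (if G.Adj u v then c * x u else 0) else 0) +
        (if u = v then (if G.Adj v w then c * x w else 0) else 0) := by
    intro u w
    rw [hx, hx]
    by_cases huw : G.Adj u w
    · by_cases hu : u = v
      · subst hu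
        have hw : w ≠ u := huw.ne'
        simp [huw, hw]
        ring
      · by_cases hw : w = v
        · subst hw
          simp [huw, hu]
          ring
        · simp [huw, hu, hw]
    · by_cases hu : u = v
      · subst hu
        by_cases hw : w = u
        · subst hw
          simp
        · simp [huw, hw]
      · by_cases hw : w = v
        · subst hw
          simp [huw, hu]
        · simp [huw, hu, hw]
  simp_rw [e, sum_add_distrib]
  have e2 : ∑ u, ∑ w, (if w = v then (if G.Adj u v then c * x u else 0) else 0) =
      c * ∑ w, (if G.Adj v w then x w else 0) := by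
    rw [mul_sum]
    apply sum_congr rfl
    intro u _
    rw [sum_ite_eq' univ v, if_pos (mem_univ _)]
    by_cases h : G.Adj u v
    · rw [if_pos h, if_pos h.symm]
    · rw [if_neg h, if_neg (fun h' => h h'.symm), mul_zero]
  have e3 : ∑ u, ∑ w, (if u = v then (if G.Adj v w then c * x w else 0) else 0) =
      c * ∑ w, (if G.Adj v w then x w else 0) := by
    rw [sum_comm, mul_sum]
    apply sum_congr rfl
    intro w _
    rw [sum_ite_eq' univ v, if_pos (mem_univ _), mul_ite, mul_zero]
  rw [e2, e3]
  ring

theorem round (x : V → ℝ) (hx : ∀ v, |x v| ≤ 1) :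
    ∃ y : V → ℝ, (∀ v, y v = 1 ∨ y v = -1) ∧ q G y ≤ q G x := by
  suffices h : ∀ W : Finset V, ∃ y : V → ℝ, (∀ v, |y v| ≤ 1) ∧ (∀ v ∈ W, y v = 1 ∨ y v = -1) ∧ q G y ≤ q G x by
    obtain ⟨y, -, hy, hq⟩ := h univ
    exact ⟨y, fun v => hy v (mem_univ v), hq⟩
  intro W
  induction W using Finset.induction_on with
  | empty => exact ⟨x, hx, by simp, le_rfl⟩
  | insert v W hv ih =>
    obtain ⟨y, hy1, hy2, hq⟩ := ih
    set g := ∑ w, (if G.Adj v w then y w else 0) with hg
    have hyv := abs_le.1 (hy1 v)
    obtain ⟨t, ht, htg⟩ : ∃ t : ℝ, (t = 1 ∨ t = -1) ∧ (t - y v) * g ≤ 0 := by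
      rcases le_total 0 g with h | h
      · exact ⟨-1, Or.inr rfl, mul_nonpos_of_nonpos_of_nonneg (by linarith) h⟩
      · exact ⟨1, Or.inl rfl, mul_nonpos_of_nonneg_of_nonpos (by linarith) h⟩
    refine ⟨Function.update y v t, ?_, ?_, ?_⟩
    · intro u
      by_cases hu : u = v
      · subst hu
        rw [Function.update_self]
        rcases ht with rfl | rfl <;> simp
      · rw [Function.update_of_ne hu]
        exact hy1 u
    · intro u hu
      by_cases huv : u = v
      · subst huv
        rw [Function.update_self]
        exact ht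
      · rw [Function.update_of_ne huv]
        exact hy2 u ((mem_insert.1 hu).resolve_left huv)
    · rw [q_update, ← hg]
      have : 2 * (t - y v) * g = 2 * ((t - y v) * g) := by ring
      rw [this]
      linarith

/-- The number of edges between a set of vertices and its complement. -/
def cut (A : Finset V) : ℕ := #{p ∈ A ×ˢ Aᶜ | G.Adj p.1 p.2}

theorem exists_cut (x : V → ℝ) (hx : ∀ v, |x v| ≤ 1) :
    ∃ A : Finset V, (#G.edgeFinset : ℝ) / 2 - q G x / 4 ≤ cut G A := by
  obtain ⟨y, hy, hq⟩ := round G x hx
  refine ⟨univ.filter (fun v => y v = 1), ?_⟩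
  have h1 : (cut G (univ.filter (fun v => y v = 1)) : ℝ) =
      ∑ u, ∑ v, (if G.Adj u v then (1 + y u) * (1 - y v) / 4 else 0) := by
    unfold cut
    rw [card_filter, sum_product]
    push_cast
    rw [sum_filter]
    apply sum_congr rfl
    intro u _
    by_cases hu : y u = 1
    · rw [if_pos hu]
      have : (univ.filter (fun v => y v = 1))ᶜ = univ.filter (fun v => ¬ y v = 1) := by
        ext v; simp
      rw [this, sum_filter]
      apply sum_congr rfl
      intro v _
      rcases hy v with hv | hv
      · rw [hv, hu]; simp
      · rw [hv, hu]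
        norm_num
    · rw [if_neg hu]
      have hu' := (hy u).resolve_left hu
      symm
      apply sum_eq_zero
      intro v _
      rw [hu']
      simp
  have h2 : ∑ u, ∑ v, (if G.Adj u v then (1 + y u) * (1 - y v) / 4 else 0) =
      (#G.edgeFinset : ℝ) / 2 - q G y / 4 := by
    have a1 : ∑ u, ∑ v, (if G.Adj u v then (1 : ℝ) else 0) = 2 * (#G.edgeFinset : ℝ) := by
      have := G.sum_degrees_eq_twice_card_edges
      have h3 : ∑ u, (G.degree u : ℝ) = 2 * (#G.edgeFinset : ℝ) := by exact_mod_cast this
      rw [← h3]
      apply sum_congr rfl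
      intro u _
      rw [← sum_filter, sum_const, nsmul_eq_mul, mul_one, ← SimpleGraph.card_neighborFinset_eq_degree]
      congr 2
      ext v
      simp
    have a2 : ∑ u, ∑ v, (if G.Adj u v then y u else 0) = ∑ u, ∑ v, (if G.Adj u v then y v else 0) := by
      rw [sum_comm]
      apply sum_congr rfl
      intro u _
      apply sum_congr rfl
      intro v _
      by_cases h : G.Adj u v
      · rw [if_pos h, if_pos h.symm]
      · rw [if_neg h, if_neg (fun h' => h h'.symm)]
    have a3 : ∀ u v, (if G.Adj u v then (1 + y u) * (1 - y v) / 4 else 0) =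
        1 / 4 * (if G.Adj u v then (1 : ℝ) else 0) + 1 / 4 * (if G.Adj u v then y u else 0) -
          1 / 4 * (if G.Adj u v then y v else 0) - 1 / 4 * (if G.Adj u v then y u * y v else 0) := by
      intro u v
      split_ifs
      · ring
      · ring
    simp_rw [a3, sum_sub_distrib, sum_add_distrib, ← mul_sum]
    rw [a1, a2]
    unfold q
    ring
  rw [h1, h2]
  linarith

end Pool.Agent.TH528.MC
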