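import Mathlib

/-!
# Sums over sign vectors
-/

set_option autoImplicit false

namespace Pool.Agent.TH528.MC

open Finset

variable {V : Type*} [Fintype V] [DecidableEq V]

/-- The sign of a Boolean. -/
noncomputable def sg (b : Bool) : ℝ := if b = true then 1 else -1

theorem sg_not (b : Bool) : sg (!b) = - sg b := by
  cases b <;> simp [sg]

theorem sg_sq (b : Bool) : sg b ^ 2 = 1 := by
  cases b <;> simp [sg]

theorem abs_sg (b : Bool) : |sg b| = 1 := by
  cases b <;> simp [sg]

/-- Flip the signs on `A`. -/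
def flip (A : Finset V) (s : V → Bool) : V → Bool := fun v => if v ∈ A then !(s v) else s v

omit [Fintype V] in
theorem flip_invol (A : Finset V) : Function.Involutive (flip A) := by
  intro s
  funext v
  unfold flip
  by_cases h : v ∈ A <;> simp [h]

theorem sum_flip (A : Finset V) (F : (V → Bool) → ℝ) : ∑ s, F (flip A s) = ∑ s, F s :=
  Equiv.sum_comp (Function.Involutive.toPerm _ (flip_invol A)) F

/-- The sum of the signs on `A`. -/
noncomputable def S (A : Finset V) (s : V → Bool) : ℝ := ∑ v ∈ A, sg (s v)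

omit [Fintype V] in
theorem S_flip_disj (A B : Finset V) (h : Disjoint A B) (s : V → Bool) : S B (flip A s) = S B s := by
  unfold S
  apply sum_congr rfl
  intro v hv
  unfold flip
  rw [if_neg (disjoint_right.1 h hv)]

omit [Fintype V] in
theorem S_flip_self (A : Finset V) (s : V → Bool) : S A (flip A s) = - S A s := by
  unfold S
  rw [← sum_neg_distrib]
  apply sum_congr rfl
  intro v hv
  unfold flip
  rw [if_pos hv, sg_not]

theorem sum_sg_mul (a : V) (F : (V → Bool) → ℝ) (hF : ∀ s, F (flip {a} s) = F s) : ∑ s, sg (s a) * F s = 0 := by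
  have h := sum_flip {a} (fun s => sg (s a) * F s)
  have h2 : ∀ s, sg (flip {a} s a) * F (flip {a} s) = - (sg (s a) * F s) := by
    intro s
    rw [hF]
    have : flip {a} s a = !(s a) := by
      unfold flip
      simp
    rw [this, sg_not]
    ring
  simp only [h2, sum_neg_distrib] at h
  linarith

omit [Fintype V] in
theorem S_insert (a : V) (A : Finset V) (ha : a ∉ A) (s : V → Bool) : S (insert a A) s = sg (s a) + S A s := by
  unfold S
  rw [sum_insert ha]

theorem moment2 (A : Finset V) : ∑ s : V → Bool, S A s ^ 2 = A.card * Fintype.card (V → Bool) := by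
  induction A using Finset.induction_on with
  | empty => simp [S]
  | insert a A ha ih =>
    have h0 : ∑ s : V → Bool, sg (s a) * S A s = 0 :=
      sum_sg_mul a _ (fun s => S_flip_disj _ _ (by simpa using ha) s)
    calc ∑ s : V → Bool, S (insert a A) s ^ 2 = ∑ s : V → Bool, (1 + 2 * (sg (s a) * S A s) + S A s ^ 2) := by
          apply sum_congr rfl
          intro s _
          rw [S_insert a A ha]
          have := sg_sq (s a)
          linear_combination this
      _ = _ := by
          rw [sum_add_distrib, sum_add_distrib, ← mul_sum, h0, ih, sum_const, card_univ, card_insert_of_notMem ha]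
          push_cast
          simp
          ring

theorem moment4 (A : Finset V) : ∑ s : V → Bool, S A s ^ 4 ≤ 3 * (A.card : ℝ) ^ 2 * Fintype.card (V → Bool) := by
  induction A using Finset.induction_on with
  | empty => simp [S]
  | insert a A ha ih =>
    have h0 : ∑ s : V → Bool, sg (s a) * S A s = 0 :=
      sum_sg_mul a _ (fun s => S_flip_disj _ _ (by simpa using ha) s)
    have h1 : ∑ s : V → Bool, sg (s a) * S A s ^ 3 = 0 :=
      sum_sg_mul a _ (fun s => by rw [S_flip_disj _ _ (by simpa using ha) s])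
    have h2 := moment2 A
    calc ∑ s : V → Bool, S (insert a A) s ^ 4 = ∑ s : V → Bool, (1 + 4 * (sg (s a) * S A s) + 6 * S A s ^ 2 +
          4 * (sg (s a) * S A s ^ 3) + S A s ^ 4) := by
          apply sum_congr rfl
          intro s _
          rw [S_insert a A ha]
          have := sg_sq (s a)
          linear_combination (sg (s a) ^ 2 + 1 + 4 * sg (s a) * S A s + 6 * S A s ^ 2) * this
      _ = Fintype.card (V → Bool) + 6 * (A.card * Fintype.card (V → Bool)) + ∑ s : V → Bool, S A s ^ 4 := by
          rw [sum_add_distrib, sum_add_distrib, sum_add_distrib, sum_add_distrib, ← mul_sum, ← mul_sum, ← mul_sum,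
            h0, h1, h2, sum_const, card_univ]
          simp
      _ ≤ Fintype.card (V → Bool) + 6 * (A.card * Fintype.card (V → Bool)) +
          3 * (A.card : ℝ) ^ 2 * Fintype.card (V → Bool) := by linarith
      _ ≤ _ := by
          rw [card_insert_of_notMem ha]
          push_cast
          have : (0 : ℝ) ≤ Fintype.card (V → Bool) := Nat.cast_nonneg _
          nlinarith

/-- The truncation. -/
noncomputable def T (z : ℝ) : ℝ := max (-1) (min 1 z)

theorem abs_T_le (z : ℝ) : |T z| ≤ 1 := by
  unfold T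
  rw [abs_le]
  exact ⟨le_max_left _ _, max_le (by norm_num) (min_le_left _ _)⟩

theorem T_neg (z : ℝ) : T (-z) = - T z := by
  unfold T
  rcases le_total 1 z with h | h
  · rw [min_eq_left h, min_eq_right (by linarith), max_eq_left (by linarith), max_eq_right (by norm_num)]
  · rcases le_total z (-1) with h' | h'
    · rw [min_eq_left (by linarith), min_eq_right (by linarith), max_eq_right (by norm_num), max_eq_left (by linarith)]
      norm_num
    · rw [min_eq_right (by linarith), min_eq_right (by linarith), max_eq_right (by linarith), max_eq_right (by linarith)]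

theorem T_lip (x y : ℝ) : |T x - T y| ≤ |x - y| := by
  have h1 := abs_max_sub_max_le_max (-1 : ℝ) (min 1 x) (-1) (min 1 y)
  have h2 := abs_min_sub_min_le_max (1 : ℝ) x 1 y
  have e1 : max |(-1 : ℝ) - (-1)| |min 1 x - min 1 y| = |min 1 x - min 1 y| := by simp
  have e2 : max |(1 : ℝ) - 1| |x - y| = |x - y| := by simp
  rw [e1] at h1
  rw [e2] at h2
  exact h1.trans h2

theorem T_zero : T 0 = 0 := by
  unfold T
  simp

theorem mul_T_ge (z : ℝ) : z ^ 2 - 4 / 27 * z ^ 4 ≤ z * T z := by
  have key : ∀ a : ℝ, 0 ≤ a → a ^ 2 - 4 / 27 * a ^ 4 ≤ a * T a := by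
    intro a ha
    unfold T
    rcases le_total 1 a with h | h
    · rw [min_eq_left h, max_eq_right (by norm_num)]
      have : a * 1 - (a ^ 2 - 4 / 27 * a ^ 4) = a * (4 / 27 * ((a - 3 / 2) ^ 2 * (a + 3))) := by ring
      have h2 : 0 ≤ a * (4 / 27 * ((a - 3 / 2) ^ 2 * (a + 3))) := by positivity
      linarith
    · rw [min_eq_right h, max_eq_right (by linarith)]
      have : 0 ≤ a ^ 4 := by positivity
      nlinarith
  rcases le_total 0 z with h | h
  · exact key z h
  · have := key (-z) (by linarith)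
    rw [T_neg] at this
    nlinarith [this]

/-- The correlation of truncated sums. -/
theorem corr (A B : Finset V) (a b : ℝ) (ha : 0 ≤ a) (hb : 0 ≤ b) :
    ∑ s : V → Bool, T (a * S A s) * T (b * S B s) ≤ a * b * ((A ∩ B).card * Fintype.card (V → Bool)) := by
  set C := A ∩ B with hC
  set A' := A \ B with hA'
  set B' := B \ A with hB'
  have dA : Disjoint A' C := by
    rw [hA', hC, disjoint_left]
    intro v hv hv2
    exact (mem_sdiff.1 hv).2 (mem_inter.1 hv2).2
  have dB : Disjoint B' C := by
    rw [hB', hC, disjoint_left]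
    intro v hv hv2
    exact (mem_sdiff.1 hv).2 (mem_inter.1 hv2).1
  have dAB : Disjoint A' B' := by
    rw [hA', hB', disjoint_left]
    intro v hv hv2
    exact (mem_sdiff.1 hv).2 (mem_sdiff.1 hv2).1
  have sA : ∀ s, S A s = S C s + S A' s := by
    intro s
    unfold S
    rw [← sum_union dA.symm]
    congr 1
    rw [hC, hA']
    ext v
    simp only [mem_union, mem_inter, mem_sdiff]
    tauto
  have sB : ∀ s, S B s = S C s + S B' s := by
    intro s
    unfold S
    rw [← sum_union dB.symm]
    congr 1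
    rw [hC, hB']
    ext v
    simp only [mem_union, mem_inter, mem_sdiff]
    tauto
  set φ : (V → Bool) → ℝ := fun s => T (a * (S C s + S A' s)) with hφ
  set ψ : (V → Bool) → ℝ := fun s => T (b * (S C s + S B' s)) with hψ
  set φ' : (V → Bool) → ℝ := fun s => T (a * (S C s - S A' s)) with hφ'
  set ψ' : (V → Bool) → ℝ := fun s => T (b * (S C s - S B' s)) with hψ'
  have e1 : ∑ s, φ' s * ψ s = ∑ s, φ s * ψ s := by
    rw [← sum_flip A' (fun s => φ s * ψ s)]
    apply sum_congr rfl
    intro s _
    simp only [hφ, hψ, hφ', S_flip_disj _ _ dA, S_flip_self, S_flip_disj _ _ dAB]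
    rw [sub_eq_add_neg]
  have e2 : ∑ s, (φ s + φ' s) * ψ' s = ∑ s, (φ s + φ' s) * ψ s := by
    rw [← sum_flip B' (fun s => (φ s + φ' s) * ψ s)]
    apply sum_congr rfl
    intro s _
    simp only [hφ, hψ, hφ', hψ', S_flip_disj _ _ dB, S_flip_self, S_flip_disj _ _ dAB.symm]
    rw [sub_eq_add_neg (S C s) (S B' s)]
  have e3 : 4 * ∑ s, φ s * ψ s = ∑ s, (φ s + φ' s) * (ψ s + ψ' s) := by
    have h1 : ∑ s, (φ s + φ' s) * ψ s = 2 * ∑ s, φ s * ψ s := by
      simp_rw [add_mul]
      rw [sum_add_distrib, e1]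
      ring
    have h2 : ∑ s, (φ s + φ' s) * (ψ s + ψ' s) = ∑ s, (φ s + φ' s) * ψ s + ∑ s, (φ s + φ' s) * ψ' s := by
      rw [← sum_add_distrib]
      apply sum_congr rfl
      intro s _
      ring
    rw [h2, e2, h1]
    ring
  have b1 : ∀ s, |φ s + φ' s| ≤ 2 * a * |S C s| := by
    intro s
    have : φ' s = - T (a * (S A' s - S C s)) := by
      show T (a * (S C s - S A' s)) = _
      rw [← T_neg]
      congr 1
      ring
    rw [this, ← sub_eq_add_neg]
    refine (T_lip _ _).trans ?_
    have : a * (S C s + S A' s) - a * (S A' s - S C s) = 2 * a * S C s := by ring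
    rw [this, abs_mul, abs_of_nonneg (by positivity)]
  have b2 : ∀ s, |ψ s + ψ' s| ≤ 2 * b * |S C s| := by
    intro s
    have : ψ' s = - T (b * (S B' s - S C s)) := by
      show T (b * (S C s - S B' s)) = _
      rw [← T_neg]
      congr 1
      ring
    rw [this, ← sub_eq_add_neg]
    refine (T_lip _ _).trans ?_
    have : b * (S C s + S B' s) - b * (S B' s - S C s) = 2 * b * S C s := by ring
    rw [this, abs_mul, abs_of_nonneg (by positivity)]
  have e4 : ∑ s, (φ s + φ' s) * (ψ s + ψ' s) ≤ 4 * (a * b * ∑ s, S C s ^ 2) := by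
    rw [mul_sum, mul_sum]
    apply sum_le_sum
    intro s _
    calc (φ s + φ' s) * (ψ s + ψ' s) ≤ |(φ s + φ' s) * (ψ s + ψ' s)| := le_abs_self _
      _ = |φ s + φ' s| * |ψ s + ψ' s| := abs_mul _ _
      _ ≤ (2 * a * |S C s|) * (2 * b * |S C s|) := mul_le_mul (b1 s) (b2 s) (abs_nonneg _) (by positivity)
      _ = 4 * (a * b * |S C s| ^ 2) := by ring
      _ = _ := by rw [sq_abs]
  rw [moment2] at e4
  have e5 : ∑ s : V → Bool, T (a * S A s) * T (b * S B s) = ∑ s, φ s * ψ s := by
    apply sum_congr rfl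
    intro s _
    rw [sA, sB]
  rw [e5]
  linarith

/-- The gain. -/
theorem gain (A : Finset V) (hA : 0 < A.card) :
    5 / 9 * Real.sqrt A.card * Fintype.card (V → Bool) ≤
      ∑ s : V → Bool, S A s * T (1 / Real.sqrt A.card * S A s) := by
  have hd : (0 : ℝ) < A.card := by exact_mod_cast hA
  set r : ℝ := Real.sqrt A.card with hr
  have hr0 : 0 < r := Real.sqrt_pos.2 hd
  have hrr : r ^ 2 = A.card := Real.sq_sqrt hd.le
  have pt : ∀ s : V → Bool, r * (S A s ^ 2 / r ^ 2 - 4 / 27 * (S A s ^ 4 / r ^ 4)) ≤ S A s * T (1 / r * S A s) := by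
    intro s
    have h1 := mul_T_ge (1 / r * S A s)
    have h2 := mul_le_mul_of_nonneg_left h1 hr0.le
    have h3 : r * (1 / r * S A s * T (1 / r * S A s)) = S A s * T (1 / r * S A s) := by
      field_simp
    rw [h3] at h2
    refine le_trans (le_of_eq ?_) h2
    field_simp
  have h1 : ∑ s : V → Bool, r * (S A s ^ 2 / r ^ 2 - 4 / 27 * (S A s ^ 4 / r ^ 4)) ≤
      ∑ s : V → Bool, S A s * T (1 / r * S A s) := sum_le_sum fun s _ => pt s
  refine le_trans ?_ h1
  have h2 := moment2 A
  have h4 := moment4 A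
  have e : ∑ s : V → Bool, r * (S A s ^ 2 / r ^ 2 - 4 / 27 * (S A s ^ 4 / r ^ 4)) =
      r * ((∑ s : V → Bool, S A s ^ 2) / r ^ 2 - 4 / 27 * ((∑ s : V → Bool, S A s ^ 4) / r ^ 4)) := by
    rw [← mul_sum, sum_sub_distrib, ← mul_sum, sum_div, sum_div]
  rw [e, h2]
  have hr4 : r ^ 4 = (A.card : ℝ) ^ 2 := by rw [← hrr]; ring
  have h5 : (∑ s : V → Bool, S A s ^ 4) / r ^ 4 ≤ 3 * Fintype.card (V → Bool) := by
    rw [div_le_iff₀ (by positivity), hr4]
    linarith
  have h6 : (A.card : ℝ) * (Fintype.card (V → Bool) : ℝ) / r ^ 2 = Fintype.card (V → Bool) := by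
    rw [hrr]
    field_simp
  rw [h6]
  have h7 : r * (5 / 9 * (Fintype.card (V → Bool) : ℝ)) ≤
      r * ((Fintype.card (V → Bool) : ℝ) - 4 / 27 * ((∑ s : V → Bool, S A s ^ 4) / r ^ 4)) := by
    apply mul_le_mul_of_nonneg_left _ hr0.le
    linarith
  linarith

end Pool.Agent.TH528.MC
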