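import Pool.Agent.TH528.MC.Signs
import Pool.Agent.TH528.MC.Round
import Pool.Agent.TH602.Turan.Paths

/-!
# Triangles in graphs without `C_{2k}`, and the cut
-/

set_option autoImplicit false

namespace Pool.Agent.TH528.MC

open Finset SimpleGraph Pool.Agent.TH602.Turan

section tri

variable {V : Type*} [Fintype V] [DecidableEq V] (G : SimpleGraph V) [DecidableRel G.Adj]

omit [Fintype V] [DecidableRel G.Adj] in
/-- A path with `2 k - 1` vertices in the neighbourhood of `x` closes up. -/
theorem tri_core {k : ℕ} (hk : 2 ≤ k) (hfree : (cycleGraph (2 * k)).Free G) (x : V)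
    (H : Finset (V × V)) (hH : ∀ e ∈ H, G.Adj x e.1 ∧ G.Adj x e.2 ∧ G.Adj e.1 e.2) :
    #H ≤ (2 * k - 2) * (#(H.image Prod.fst) + #(H.image Prod.snd)) := by
  by_contra hcon
  push Not at hcon
  obtain ⟨K, hKH, hKne, hK1, hK2⟩ := exists_core _ H hcon
  obtain ⟨e₀, he₀⟩ := hKne
  obtain ⟨a, l, hlen, hpw, hch, hlast, hP, hall⟩ := greedy (fun v : V => ({v} : Finset V)) 1
    (2 * k - 2) (fun v => by simp)
    (fun b v => bif b then v ∈ K.image Prod.snd else v ∈ K.image Prod.fst) G.Adj
    (by
      intro b v hv S hS
      cases b with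
      | false =>
        simp only [cond_false, mem_image] at hv
        obtain ⟨e, he, rfl⟩ := hv
        have h1 := hK1 e he
        have h2 : #S < #((K.filter fun e' => e'.1 = e.1).image Prod.snd) := by
          rw [card_image_of_injOn]
          · omega
          · intro a ha b hb hab
            simp only [coe_filter, Set.mem_ofPred_eq] at ha hb
            exact Prod.ext (ha.2.trans hb.2.symm) hab
        obtain ⟨w, hw, hwS⟩ := exists_mem_notMem_of_card_lt_card h2
        rw [mem_image] at hw
        obtain ⟨e', he', rfl⟩ := hw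
        rw [mem_filter] at he'
        refine ⟨e'.2, by simpa using hwS, ?_, ?_⟩
        · simp only [Bool.not_false, cond_true, mem_image]
          exact ⟨e', he'.1, rfl⟩
        · rw [← he'.2]
          exact (hH e' (hKH he'.1)).2.2.symm
      | true =>
        simp only [cond_true, mem_image] at hv
        obtain ⟨e, he, rfl⟩ := hv
        have h1 := hK2 e he
        have h2 : #S < #((K.filter fun e' => e'.2 = e.2).image Prod.fst) := by
          rw [card_image_of_injOn]
          · omega
          · intro a ha b hb hab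
            simp only [coe_filter, Set.mem_ofPred_eq] at ha hb
            exact Prod.ext hab (ha.2.trans hb.2.symm)
        obtain ⟨w, hw, hwS⟩ := exists_mem_notMem_of_card_lt_card h2
        rw [mem_image] at hw
        obtain ⟨e', he', rfl⟩ := hw
        rw [mem_filter] at he'
        refine ⟨e'.1, by simpa using hwS, ?_, ?_⟩
        · simp only [Bool.not_true, cond_false, mem_image]
          exact ⟨e', he'.1, rfl⟩
        · rw [← he'.2]
          exact (hH e' (hKH he'.1)).2.2)
    false e₀.1 (by simp only [cond_false, mem_image]; exact ⟨e₀, he₀, rfl⟩) (2 * k - 2) (by omega)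
  have hadj : ∀ v ∈ a :: l, G.Adj x v := by
    intro v hv
    obtain ⟨b, hb⟩ := hall v hv
    cases b with
    | false =>
      simp only [cond_false, mem_image] at hb
      obtain ⟨e, he, rfl⟩ := hb
      exact (hH e (hKH he)).1
    | true =>
      simp only [cond_true, mem_image] at hb
      obtain ⟨e, he, rfl⟩ := hb
      exact (hH e (hKH he)).2.1
  have hnd : (a :: l).Nodup := hpw.imp fun {u v} h => by
    rw [disjoint_singleton] at h
    exact h
  apply hfree
  refine cycle_of_list (x :: a :: l) ?_ ?_ ?_ (by simp) ?_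
  · rw [List.length_cons, hlen]; omega
  · rw [List.nodup_cons]
    exact ⟨fun h => (hadj x h).ne rfl, hnd⟩
  · exact List.IsChain.cons_cons (hadj a (by simp)) hch
  · rw [List.getLast_cons (by simp), List.head_cons]
    exact (hadj _ (List.getLast_mem _)).symm

theorem tri_le {k : ℕ} (hk : 2 ≤ k) (hfree : (cycleGraph (2 * k)).Free G) (x : V) :
    ∑ u ∈ G.neighborFinset x, #(G.neighborFinset x ∩ G.neighborFinset u) ≤ (4 * k - 4) * G.degree x := by
  set H := (G.neighborFinset x ×ˢ G.neighborFinset x).filter (fun e => G.Adj e.1 e.2) with hHdef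
  have hmem : ∀ e ∈ H, G.Adj x e.1 ∧ G.Adj x e.2 ∧ G.Adj e.1 e.2 := by
    intro e he
    rw [hHdef, mem_filter, mem_product, mem_neighborFinset, mem_neighborFinset] at he
    exact ⟨he.1.1, he.1.2, he.2⟩
  have h1 := tri_core G hk hfree x H hmem
  have h2 : #(H.image Prod.fst) ≤ G.degree x := by
    rw [← card_neighborFinset_eq_degree]
    apply card_le_card
    intro v hv
    rw [mem_image] at hv
    obtain ⟨e, he, rfl⟩ := hv
    rw [mem_neighborFinset]
    exact (hmem e he).1
  have h3 : #(H.image Prod.snd) ≤ G.degree x := by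
    rw [← card_neighborFinset_eq_degree]
    apply card_le_card
    intro v hv
    rw [mem_image] at hv
    obtain ⟨e, he, rfl⟩ := hv
    rw [mem_neighborFinset]
    exact (hmem e he).2.1
  have h4 : ∑ u ∈ G.neighborFinset x, #(G.neighborFinset x ∩ G.neighborFinset u) = #H := by
    rw [hHdef, card_filter, sum_product]
    apply sum_congr rfl
    intro u _
    rw [← card_filter]
    congr 1
    ext v
    simp only [mem_inter, mem_neighborFinset, mem_filter]
  rw [h4]
  have h5 : (2 * k - 2) * (#(H.image Prod.fst) + #(H.image Prod.snd)) ≤ (2 * k - 2) * (G.degree x + G.degree x) :=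
    Nat.mul_le_mul_left _ (by omega)
  have h6 : (4 * k - 4) * G.degree x = (2 * k - 2) * (G.degree x + G.degree x) := by
    have : 4 * k - 4 = 2 * (2 * k - 2) := by omega
    rw [this]
    ring
  omega

/-- The cut theorem of Alon, Krivelevich and Sudakov with an explicit constant. -/
theorem cut_ge {k : ℕ} (hk : 2 ≤ k) (hfree : (cycleGraph (2 * k)).Free G) :
    ∃ A : Finset V, (#G.edgeFinset : ℝ) / 2 + 1 / (256 * k) * ∑ v, Real.sqrt (G.degree v) ≤ cut G A := by
  set P : ℝ := ((Fintype.card (V → Bool) : ℕ) : ℝ) with hP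
  have hP0 : 0 < P := by
    rw [hP]
    exact_mod_cast Fintype.card_pos
  have hk1 : (2 : ℝ) ≤ k := by exact_mod_cast hk
  set δ : ℝ := 1 / (8 * k) with hδ
  have hδ0 : 0 < δ := by positivity
  have hδ1 : δ ≤ 1 := by
    rw [hδ, div_le_one (by positivity)]
    linarith
  set r : V → ℝ := fun v => 1 / Real.sqrt (G.degree v) with hr
  have hr0 : ∀ v, 0 ≤ r v := fun v => by positivity
  set t : (V → Bool) → V → ℝ := fun s v => T (r v * S (G.neighborFinset v) s) with ht
  set x : (V → Bool) → V → ℝ := fun s v => (sg (s v) - δ * t s v) / 2 with hx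
  have hxb : ∀ s v, |x s v| ≤ 1 := by
    intro s v
    have h1 : |sg (s v) - δ * t s v| ≤ 2 := by
      calc |sg (s v) - δ * t s v| ≤ |sg (s v)| + |δ * t s v| := abs_sub _ _
        _ = 1 + δ * |t s v| := by rw [abs_sg, abs_mul, abs_of_pos hδ0]
        _ ≤ 1 + 1 * 1 := by
            have := mul_le_mul hδ1 (abs_T_le (r v * S (G.neighborFinset v) s)) (abs_nonneg _) zero_le_one
            linarith
        _ = 2 := by norm_num
    show |(sg (s v) - δ * t s v) / 2| ≤ 1
    rw [abs_div, abs_of_pos (by norm_num : (0 : ℝ) < 2), div_le_one (by norm_num)]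
    exact h1
  set Sq : ℝ := ∑ v, Real.sqrt (G.degree v) with hSq
  -- the three sums
  have s1 : ∀ u v, G.Adj u v → ∑ s : V → Bool, sg (s u) * sg (s v) = 0 := by
    intro u v huv
    apply sum_sg_mul u (fun s => sg (s v))
    intro s
    simp [flip, huv.ne']
  have s2 : 5 / 9 * Sq * P ≤ ∑ s : V → Bool, ∑ u, ∑ v, (if G.Adj u v then sg (s u) * t s v else 0) := by
    have e1 : ∀ s : V → Bool, ∑ u, ∑ v, (if G.Adj u v then sg (s u) * t s v else 0) =
        ∑ v, S (G.neighborFinset v) s * t s v := by
      intro s
      rw [sum_comm]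
      apply sum_congr rfl
      intro v _
      rw [← sum_filter, S, sum_mul]
      apply sum_congr _ (fun _ _ => rfl)
      ext u
      simp [G.adj_comm]
    simp_rw [e1]
    rw [sum_comm, hSq, mul_sum, sum_mul]
    apply sum_le_sum
    intro v _
    rcases Nat.eq_zero_or_pos (G.degree v) with h0 | h0
    · have h1 : G.neighborFinset v = ∅ := by
        rw [← card_eq_zero, card_neighborFinset_eq_degree, h0]
      rw [h0]
      simp [h1, S]
    · have := gain (G.neighborFinset v) (by rw [card_neighborFinset_eq_degree]; exact h0)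
      rw [card_neighborFinset_eq_degree] at this
      exact this
  have s3 : ∑ s : V → Bool, ∑ u, ∑ v, (if G.Adj u v then t s u * t s v else 0) ≤ (4 * k - 4) * Sq * P := by
    have e1 : ∑ s : V → Bool, ∑ u, ∑ v, (if G.Adj u v then t s u * t s v else 0) =
        ∑ u, ∑ v, (if G.Adj u v then ∑ s : V → Bool, t s u * t s v else 0) := by
      rw [sum_comm]
      apply sum_congr rfl
      intro u _
      rw [sum_comm]
      apply sum_congr rfl
      intro v _
      split_ifs
      · rfl
      · simp
    rw [e1]
    have e2 : ∀ u v, (if G.Adj u v then ∑ s : V → Bool, t s u * t s v else 0) ≤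
        (if G.Adj u v then 1 / 2 * (1 / (G.degree u : ℝ)) * (#(G.neighborFinset u ∩ G.neighborFinset v) * P) else 0) +
        (if G.Adj u v then 1 / 2 * (1 / (G.degree v : ℝ)) * (#(G.neighborFinset u ∩ G.neighborFinset v) * P) else 0) := by
      intro u v
      by_cases h : G.Adj u v
      · rw [if_pos h, if_pos h, if_pos h]
        refine (corr (G.neighborFinset u) (G.neighborFinset v) (r u) (r v) (hr0 u) (hr0 v)).trans ?_
        rw [← add_mul]
        apply mul_le_mul_of_nonneg_right _ (by positivity)
        have h1 : r u ^ 2 = 1 / (G.degree u : ℝ) := by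
          rw [hr, div_pow, one_pow, Real.sq_sqrt (Nat.cast_nonneg _)]
        have h2 : r v ^ 2 = 1 / (G.degree v : ℝ) := by
          rw [hr, div_pow, one_pow, Real.sq_sqrt (Nat.cast_nonneg _)]
        rw [← h1, ← h2]
        nlinarith [sq_nonneg (r u - r v)]
      · rw [if_neg h, if_neg h, if_neg h, add_zero]
    have e3 : ∀ u, ∑ v, (if G.Adj u v then 1 / 2 * (1 / (G.degree u : ℝ)) *
        (#(G.neighborFinset u ∩ G.neighborFinset v) * P) else 0) ≤ (2 * k - 2) * P * Real.sqrt (G.degree u) := by
      intro u
      rw [← sum_filter]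
      have f1 : (univ.filter (fun v => G.Adj u v)) = G.neighborFinset u := by
        ext v; simp
      rw [f1, ← mul_sum, ← sum_mul]
      rcases Nat.eq_zero_or_pos (G.degree u) with h0 | h0
      · rw [h0]
        simp
      · have hd : (0 : ℝ) < G.degree u := by exact_mod_cast h0
        have h1 : (∑ v ∈ G.neighborFinset u, (#(G.neighborFinset u ∩ G.neighborFinset v) : ℝ)) ≤
            (4 * k - 4) * G.degree u := by
          have := tri_le G hk hfree u
          have h2 : ((∑ v ∈ G.neighborFinset u, #(G.neighborFinset u ∩ G.neighborFinset v) : ℕ) : ℝ) ≤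
              (((4 * k - 4) * G.degree u : ℕ) : ℝ) := by exact_mod_cast this
          rw [Nat.cast_mul, Nat.cast_sub (by omega)] at h2
          push_cast at h2
          exact h2
        have h3 : 1 ≤ Real.sqrt (G.degree u) := by
          rw [Real.one_le_sqrt]
          exact_mod_cast h0
        calc 1 / 2 * (1 / (G.degree u : ℝ)) *
              ((∑ v ∈ G.neighborFinset u, (#(G.neighborFinset u ∩ G.neighborFinset v) : ℝ)) * P)
            ≤ 1 / 2 * (1 / (G.degree u : ℝ)) * (((4 * k - 4) * G.degree u) * P) := by
              apply mul_le_mul_of_nonneg_left _ (by positivity)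
              exact mul_le_mul_of_nonneg_right h1 hP0.le
          _ = (2 * k - 2) * P * 1 := by
              field_simp
              ring
          _ ≤ _ := by
              apply mul_le_mul_of_nonneg_left h3
              have : (0 : ℝ) ≤ 2 * k - 2 := by linarith
              positivity
    have e4 : ∑ u, ∑ v, (if G.Adj u v then 1 / 2 * (1 / (G.degree v : ℝ)) *
        (#(G.neighborFinset u ∩ G.neighborFinset v) * P) else 0) =
        ∑ u, ∑ v, (if G.Adj u v then 1 / 2 * (1 / (G.degree u : ℝ)) *
        (#(G.neighborFinset u ∩ G.neighborFinset v) * P) else 0) := by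
      rw [sum_comm]
      apply sum_congr rfl
      intro u _
      apply sum_congr rfl
      intro v _
      by_cases h : G.Adj u v
      · rw [if_pos h, if_pos h.symm, inter_comm]
      · rw [if_neg h, if_neg (fun h' => h h'.symm)]
    calc ∑ u, ∑ v, (if G.Adj u v then ∑ s : V → Bool, t s u * t s v else 0)
        ≤ ∑ u, ∑ v, ((if G.Adj u v then 1 / 2 * (1 / (G.degree u : ℝ)) *
            (#(G.neighborFinset u ∩ G.neighborFinset v) * P) else 0) +
          (if G.Adj u v then 1 / 2 * (1 / (G.degree v : ℝ)) *
            (#(G.neighborFinset u ∩ G.neighborFinset v) * P) else 0)) :=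
          sum_le_sum fun u _ => sum_le_sum fun v _ => e2 u v
      _ = 2 * ∑ u, ∑ v, (if G.Adj u v then 1 / 2 * (1 / (G.degree u : ℝ)) *
            (#(G.neighborFinset u ∩ G.neighborFinset v) * P) else 0) := by
          simp_rw [sum_add_distrib]
          rw [e4]
          ring
      _ ≤ 2 * ∑ u, (2 * k - 2) * P * Real.sqrt (G.degree u) := by
          have := sum_le_sum fun u (_ : u ∈ (univ : Finset V)) => e3 u
          linarith
      _ = _ := by
          rw [← mul_sum]
          ring
  -- the average of `q`
  have avg : ∑ s : V → Bool, q G (x s) ≤ - (1 / (64 * k) * Sq * P) := by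
    have e1 : ∀ s : V → Bool, q G (x s) = 1 / 4 * ∑ u, ∑ v, (if G.Adj u v then sg (s u) * sg (s v) else 0) -
        δ / 2 * ∑ u, ∑ v, (if G.Adj u v then sg (s u) * t s v else 0) +
        δ ^ 2 / 4 * ∑ u, ∑ v, (if G.Adj u v then t s u * t s v else 0) := by
      intro s
      have a2 : ∑ u, ∑ v, (if G.Adj u v then t s u * sg (s v) else 0) =
          ∑ u, ∑ v, (if G.Adj u v then sg (s u) * t s v else 0) := by
        rw [sum_comm]
        apply sum_congr rfl
        intro u _
        apply sum_congr rfl
        intro v _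
        by_cases h : G.Adj u v
        · rw [if_pos h, if_pos h.symm, mul_comm]
        · rw [if_neg h, if_neg (fun h' => h h'.symm)]
      have a3 : ∀ u v, (if G.Adj u v then x s u * x s v else 0) =
          1 / 4 * (if G.Adj u v then sg (s u) * sg (s v) else 0) -
          δ / 4 * (if G.Adj u v then sg (s u) * t s v else 0) -
          δ / 4 * (if G.Adj u v then t s u * sg (s v) else 0) +
          δ ^ 2 / 4 * (if G.Adj u v then t s u * t s v else 0) := by
        intro u v
        split_ifs
        · simp only [hx]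
          ring
        · ring
      unfold q
      simp_rw [a3, sum_add_distrib, sum_sub_distrib, ← mul_sum]
      rw [a2]
      ring
    simp_rw [e1]
    rw [sum_add_distrib, sum_sub_distrib, ← mul_sum, ← mul_sum, ← mul_sum]
    have z1 : ∑ s : V → Bool, ∑ u, ∑ v, (if G.Adj u v then sg (s u) * sg (s v) else 0) = 0 := by
      rw [sum_comm]
      apply sum_eq_zero
      intro u _
      rw [sum_comm]
      apply sum_eq_zero
      intro v _
      by_cases h : G.Adj u v
      · simp only [if_pos h]
        exact s1 u v h
      · simp [h]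
    rw [z1]
    have hSq0 : 0 ≤ Sq := sum_nonneg fun v _ => Real.sqrt_nonneg _
    have m2 := mul_le_mul_of_nonneg_left s2 (by positivity : (0 : ℝ) ≤ δ / 2)
    have m3 := mul_le_mul_of_nonneg_left s3 (by positivity : (0 : ℝ) ≤ δ ^ 2 / 4)
    have m4 : δ / 2 * (5 / 9 * Sq * P) - δ ^ 2 / 4 * ((4 * k - 4) * Sq * P) =
        δ / 4 * (10 / 9 - δ * (4 * k - 4)) * (Sq * P) := by ring
    have m5 : δ * (4 * k - 4) ≤ 1 / 2 := by
      rw [hδ, div_mul_eq_mul_div, one_mul, div_le_iff₀ (by positivity)]
      linarith
    have m6 : 1 / (64 * k) * (Sq * P) ≤ δ / 4 * (10 / 9 - δ * (4 * k - 4)) * (Sq * P) := by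
      apply mul_le_mul_of_nonneg_right _ (by positivity)
      have : 1 / (64 * (k : ℝ)) = δ / 4 * (1 / 2) := by
        rw [hδ]
        field_simp
        norm_num
      rw [this]
      apply mul_le_mul_of_nonneg_left _ (by positivity)
      linarith
    have m7 : 1 / (64 * k) * Sq * P = 1 / (64 * k) * (Sq * P) := by ring
    rw [m7]
    linarith
  obtain ⟨s, hs⟩ : ∃ s : V → Bool, q G (x s) ≤ - (1 / (64 * k) * Sq) := by
    by_contra hcon
    push Not at hcon
    have : ∑ _s : V → Bool, - (1 / (64 * k) * Sq) < ∑ s : V → Bool, q G (x s) :=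
      sum_lt_sum_of_nonempty univ_nonempty fun s _ => hcon s
    rw [sum_const, card_univ, nsmul_eq_mul, ← hP] at this
    linarith
  obtain ⟨A, hA⟩ := exists_cut G (x s) (hxb s)
  refine ⟨A, le_trans ?_ hA⟩
  have : 1 / (256 * (k : ℝ)) * Sq = 1 / (64 * k) * Sq / 4 := by
    field_simp
    ring
  rw [this]
  linarith

end tri

end Pool.Agent.TH528.MC
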